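import Mathlib
import Pool.Agent.Helper66.NonReduc

/-!
A `BΣ₁` model in which the degree of a `Σ₁` cut is not minimal.

There is a countable model `M` of `PA⁻ + IΣ₀ + BΣ₁` (in which moreover every bounded
`Σ₀`-definable set is coded, so that the `M`-finite sets are the usual ones) whose standard cut `I`
is a `Σ₁` cut, together with a set `X` such that `∅ <_T X <_T I`.

The model consists of the germs, along a sufficiently generic ultrafilter on a countable set, of
the members of a countable class of functions that is closed under the operations needed and
bounded by towers of exponentials; `X` is an initial segment determined by the generic.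
All definitions used in the statement are in `Pool.Agent.Helper66.ArithDefs`.
-/

set_option autoImplicit false

namespace Pool.Agent.Results.MP_79a54e_lc.SigmaCutNotMinimal

open Pool.Agent.Helper66.Arith

/-- Negated form of the question, with `n = 1`: some `BΣ₁` model has a `Σ₁` cut `I` (its standard
cut) such that some set `X` satisfies `∅ <_T X <_T I`. -/
theorem result :
    ∃ (M : Type) (_ : CommSemiring M) (_ : LinearOrder M) (_ : IsStrictOrderedRing M),
      Countable M ∧ IsBSigmaModel M 1 ∧
      (∀ φ : Fm, φ.IsBounded → ∀ (v : ℕ → M) (a : M), ∃ e : M, ∀ x : M,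
        x ∈ Coded e ↔ x < a ∧ φ.Holds (Function.update v 0 x)) ∧
      ∃ I X : Set M, IsSigmaCut 1 I ∧ (∀ x : M, x ∈ I ↔ ∃ k : ℕ, x = (k : M)) ∧
        TuringLT (∅ : Set M) X ∧ TuringLT X I :=
  main

end Pool.Agent.Results.MP_79a54e_lc.SigmaCutNotMinimal
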